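import Pool.Agent.Q86.EM.Stm5

/-!
# Project FD (helper86), job DTD: KLS for forests, bounded support
-/

set_option autoImplicit false

namespace Pool.Agent.Q150.EM.DTD

open MeasureTheory Set Filter Topology
open scoped ENNReal InnerProductSpace ContDiff
open Pool.Agent.H888R2.KT (LC)
open Pool.Agent.H212R2.KLS (mu Bdd)
open Pool.Agent.Q86.FIB (EK spl oo lp)
open Pool.Agent.Q86.EM

/-! ### general facts -/

section gen

variable {κ : Type} [Fintype κ]

theorem kls_empty [IsEmpty κ] (ρ : Eu κ → ℝ) (k : ℝ) : KLSd ρ k := by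
  intro s _ f _
  have hs : ∀ x : Eu κ, x = 0 := fun x => Subsingleton.elim _ _
  have h1 : ∀ x : Eu κ, f x = f 0 := fun x => by rw [hs x]
  have h2 : f = fun _ => f 0 := funext h1
  have h3 : ∀ x : Eu κ, fderiv ℝ f x = 0 := fun x => by
    rw [h2]
    exact fderiv_const_apply (f 0)
  simp_rw [h3, h1]
  rw [integral_const_mul, integral_const_mul]
  simp
  apply le_of_eq
  ring

theorem kls_smul {ρ : Eu κ → ℝ} {c k : ℝ} (hc : 0 < c) (h : KLSd ρ k) : KLSd (fun x => c * ρ x) k := by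
  have e : ∀ g : Eu κ → ℝ, ∫ x, g x * (c * ρ x) = c * ∫ x, g x * ρ x := fun g => by
    rw [← integral_const_mul]
    exact integral_congr_ae (ae_of_all _ fun x => by dsimp only; ring)
  have e1 : ∫ x, c * ρ x = c * ∫ x, ρ x := integral_const_mul _ _
  intro s hs
  have h1 : CVd ρ s := by
    intro θ
    have h2 := hs θ
    rw [e, e, e1] at h2
    have h3 : 0 < c ^ 2 := by positivity
    refine le_of_mul_le_mul_left ?_ h3
    calc c ^ 2 * ((∫ x, ρ x) * (∫ x, ⟪θ, x⟫_ℝ ^ 2 * ρ x) - (∫ x, ⟪θ, x⟫_ℝ * ρ x) ^ 2)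
        = (c * ∫ x, ρ x) * (c * ∫ x, ⟪θ, x⟫_ℝ ^ 2 * ρ x) - (c * ∫ x, ⟪θ, x⟫_ℝ * ρ x) ^ 2 := by ring
      _ ≤ s * ‖θ‖ ^ 2 * (c * ∫ x, ρ x) ^ 2 := h2
      _ = c ^ 2 * (s * ‖θ‖ ^ 2 * (∫ x, ρ x) ^ 2) := by ring
  intro f hf
  have h2 := h s h1 f hf
  rw [e, e, e, e1]
  have h3 : 0 ≤ c ^ 2 := by positivity
  calc (c * ∫ x, ρ x) * (c * ∫ x, f x ^ 2 * ρ x) - (c * ∫ x, f x * ρ x) ^ 2
      = c ^ 2 * ((∫ x, ρ x) * (∫ x, f x ^ 2 * ρ x) - (∫ x, f x * ρ x) ^ 2) := by ring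
    _ ≤ c ^ 2 * (k * s * (∫ x, ρ x) * ∫ x, ‖fderiv ℝ f x‖ ^ 2 * ρ x) := mul_le_mul_of_nonneg_left h2 h3
    _ = k * s * (c * ∫ x, ρ x) * (c * ∫ x, ‖fderiv ℝ f x‖ ^ 2 * ρ x) := by ring

theorem mu_univ (ρ : Eu κ → ℝ) : mu ρ univ = ∫⁻ x, ENNReal.ofReal (ρ x) := by
  unfold mu
  rw [withDensity_apply _ MeasurableSet.univ, Measure.restrict_univ]

theorem mu_ne (ρ : Eu κ → ℝ) : mu ρ ≠ 0 ↔ ∫⁻ x, ENNReal.ofReal (ρ x) ≠ 0 := by
  rw [← mu_univ, ne_eq, ne_eq, Measure.measure_univ_eq_zero]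

theorem lc_smul {ρ : Eu κ → ℝ} {c : ℝ} (hc : 0 < c) (h : LC ρ) : LC (fun x => c * ρ x) := by
  have h1 : ∫⁻ x, ENNReal.ofReal (c * ρ x) = ENNReal.ofReal c * ∫⁻ x, ENNReal.ofReal (ρ x) := by
    rw [← lintegral_const_mul _ h.meas.ennreal_ofReal]
    exact lintegral_congr fun x => ENNReal.ofReal_mul hc.le
  refine ⟨fun x => mul_nonneg hc.le (h.nonneg x), h.meas.const_mul c, ?_, ?_, ?_, ?_⟩
  · intro x y t h0 h1
    rw [Real.mul_rpow hc.le (h.nonneg x), Real.mul_rpow hc.le (h.nonneg y)]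
    have h2 : c ^ (1 - t) * c ^ t = c := by
      rw [← Real.rpow_add hc, sub_add_cancel, Real.rpow_one]
    calc c ^ (1 - t) * ρ x ^ (1 - t) * (c ^ t * ρ y ^ t) = c ^ (1 - t) * c ^ t * (ρ x ^ (1 - t) * ρ y ^ t) := by ring
      _ = c * (ρ x ^ (1 - t) * ρ y ^ t) := by rw [h2]
      _ ≤ _ := mul_le_mul_of_nonneg_left (h.logc x y t h0 h1) hc.le
  · obtain ⟨R, hR⟩ := h.bdd
    exact ⟨R, fun x hx => by
      show c * ρ x = 0
      rw [hR x hx, mul_zero]⟩
  · rw [mu_univ, h1, ← mu_univ]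
    exact ENNReal.mul_ne_top ENNReal.ofReal_ne_top h.fin
  · rw [mu_ne, h1]
    refine mul_ne_zero ?_ ((mu_ne ρ).1 h.ne)
    rw [ne_eq, ENNReal.ofReal_eq_zero, not_le]
    exact hc

theorem lc_unsmul {ρ : Eu κ → ℝ} {c : ℝ} (hc : 0 < c) (h : LC (fun x => c * ρ x)) : LC ρ := by
  have h1 := lc_smul (inv_pos.2 hc) h
  have h2 : (fun x => c⁻¹ * (c * ρ x)) = ρ := by
    funext x
    rw [← mul_assoc, inv_mul_cancel₀ hc.ne', one_mul]
  rw [h2] at h1
  exact h1

end gen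

/-! ### factors -/

section fac

variable {ι α : Type} [Fintype ι] [Fintype α] [PartialOrder ι] [PartialOrder α]

theorem fac_pull {F : ι → Eu ι → ℝ} (hF : Fac F) (j : α → ι) (A : Eu α → Eu ι) (hA : Measurable A)
    (haff : ∀ (t : ℝ) (x y : Eu α), A ((1 - t) • x + t • y) = (1 - t) • A x + t • A y)
    (hdep : ∀ (v : α) (x y : Eu α), (∀ u, u ≤ v → x u = y u) → ∀ u, u ≤ j v → A x u = A y u) :
    Fac (fun v x => F (j v) (A x)) where
  nonneg v x := hF.nonneg _ _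
  meas v := (hF.meas (j v)).comp hA
  logc v x y t h0 h1 := by
    rw [haff]
    exact hF.logc (j v) (A x) (A y) t h0 h1
  dep v x y h := hF.dep (j v) _ _ (hdep v x y h)

omit [PartialOrder α] in
theorem prod_logc {κ : Type} [Fintype κ] (G : α → Eu κ → ℝ) (h0 : ∀ v x, 0 ≤ G v x)
    (h : ∀ v (x y : Eu κ) (t : ℝ), 0 < t → t < 1 → G v x ^ (1 - t) * G v y ^ t ≤ G v ((1 - t) • x + t • y))
    (x y : Eu κ) (t : ℝ) (ht0 : 0 < t) (ht1 : t < 1) :
    (∏ v, G v x) ^ (1 - t) * (∏ v, G v y) ^ t ≤ ∏ v, G v ((1 - t) • x + t • y) := by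
  rw [← Real.finsetProd_rpow _ _ (fun v _ => h0 v x), ← Real.finsetProd_rpow _ _ (fun v _ => h0 v y),
    ← Finset.prod_mul_distrib]
  exact Finset.prod_le_prod (fun v _ => mul_nonneg (Real.rpow_nonneg (h0 v x) _) (Real.rpow_nonneg (h0 v y) _))
    fun v _ => h v x y t ht0 ht1

omit [Fintype α] [PartialOrder α] in
theorem frs_sub {d : ℕ} (h : Frs ι d) (P : ι → Prop) [Fintype {v // P v}] : Frs {v // P v} d where
  chain v a b ha hb := h.chain v.1 a.1 b.1 ha hb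
  height v := by
    refine le_trans ?_ (h.height v.1)
    refine Nat.card_le_card_of_injective (fun u : {u : {v // P v} // u ≤ v} =>
      (⟨u.1.1, u.2⟩ : {u : ι // u ≤ v.1})) ?_
    intro a b hab
    have h1 : a.1.1 = b.1.1 := congrArg (fun z : {u : ι // u ≤ v.1} => z.1) hab
    exact Subtype.ext (Subtype.ext h1)

omit [Fintype α] [PartialOrder α] in
theorem frs_root {d : ℕ} (h : Frs ι d) (r : ι) (hr : ∀ v, r ≤ v) [Fintype {v // v ≠ r}] :
    Frs {v // v ≠ r} (d - 1) where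
  chain v a b ha hb := h.chain v.1 a.1 b.1 ha hb
  height v := by
    have h1 := h.height v.1
    have h2 : Nat.card (Option {u : {v // v ≠ r} // u ≤ v}) ≤ Nat.card {u : ι // u ≤ v.1} := by
      refine Nat.card_le_card_of_injective (fun o : Option {u : {v // v ≠ r} // u ≤ v} =>
        (o.elim ⟨r, hr v.1⟩ (fun u => ⟨u.1.1, u.2⟩) : {u : ι // u ≤ v.1})) ?_
      intro a b hab
      rcases a with _ | a <;> rcases b with _ | b
      · rfl
      · exact absurd (congrArg (fun z : {u : ι // u ≤ v.1} => z.1) hab).symm b.1.2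
      · exact absurd (congrArg (fun z : {u : ι // u ≤ v.1} => z.1) hab) a.1.2
      · have h1 : a.1.1 = b.1.1 := congrArg (fun z : {u : ι // u ≤ v.1} => z.1) hab
        rw [Subtype.ext (Subtype.ext h1)]
    rw [Finite.card_option] at h2
    omega

end fac

/-! ### products -/

section ten

variable {α β : Type} [Fintype α] [Fintype β]

theorem lint_sum (f : Eu α → ℝ≥0∞) (g : Eu β → ℝ≥0∞) (hf : Measurable f) (hg : Measurable g) :
    ∫⁻ x : Eu (α ⊕ β), f (WithLp.toLp 2 fun i => x (Sum.inl i)) * g (WithLp.toLp 2 fun j => x (Sum.inr j)) =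
      (∫⁻ x, f x) * ∫⁻ y, g y := by
  have hmp : MeasurePreserving (fun x : Eu (α ⊕ β) => (((WithLp.toLp 2 fun i => x (Sum.inl i)) : Eu α),
      ((WithLp.toLp 2 fun j => x (Sum.inr j)) : Eu β))) volume (volume.prod volume) := by
    have h1 := EuclideanSpace.volume_preserving_symm_measurableEquiv_toLp (α ⊕ β)
    have h2 := volume_measurePreserving_sumPiEquivProdPi (fun _ : α ⊕ β => ℝ)
    have h3 := (PiLp.volume_preserving_toLp α).prod (PiLp.volume_preserving_toLp β)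
    exact h3.comp (h2.comp h1)
  have h4 := hmp.lintegral_comp (f := fun z : Eu α × Eu β => f z.1 * g z.2)
    ((hf.comp measurable_fst).mul (hg.comp measurable_snd))
  rw [h4, lintegral_prod_mul hf.aemeasurable hg.aemeasurable]

theorem lc_factors (ρ₁ : Eu α → ℝ) (ρ₂ : Eu β → ℝ) (h1 : ∀ x, 0 ≤ ρ₁ x) (h2 : ∀ x, 0 ≤ ρ₂ x)
    (m1 : Measurable ρ₁) (m2 : Measurable ρ₂)
    (l1 : ∀ (x y : Eu α) (t : ℝ), 0 < t → t < 1 → ρ₁ x ^ (1 - t) * ρ₁ y ^ t ≤ ρ₁ ((1 - t) • x + t • y))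
    (l2 : ∀ (x y : Eu β) (t : ℝ), 0 < t → t < 1 → ρ₂ x ^ (1 - t) * ρ₂ y ^ t ≤ ρ₂ ((1 - t) • x + t • y))
    (h : LC (fun x : Eu (α ⊕ β) => ρ₁ (WithLp.toLp 2 fun i => x (Sum.inl i)) *
      ρ₂ (WithLp.toLp 2 fun j => x (Sum.inr j)))) : LC ρ₁ ∧ LC ρ₂ := by
  have hm : ∫⁻ x : Eu (α ⊕ β), ENNReal.ofReal (ρ₁ (WithLp.toLp 2 fun i => x (Sum.inl i)) *
      ρ₂ (WithLp.toLp 2 fun j => x (Sum.inr j))) =
      (∫⁻ x, ENNReal.ofReal (ρ₁ x)) * ∫⁻ y, ENNReal.ofReal (ρ₂ y) := by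
    rw [← lint_sum _ _ m1.ennreal_ofReal m2.ennreal_ofReal]
    exact lintegral_congr fun x => ENNReal.ofReal_mul (h1 _)
  have hne := (mu_ne _).1 h.ne
  have hfin := h.fin
  rw [mu_univ, hm] at hfin
  rw [hm] at hne
  have hne1 : ∫⁻ x, ENNReal.ofReal (ρ₁ x) ≠ 0 := left_ne_zero_of_mul hne
  have hne2 : ∫⁻ x, ENNReal.ofReal (ρ₂ x) ≠ 0 := right_ne_zero_of_mul hne
  have hf1 : ∫⁻ x, ENNReal.ofReal (ρ₁ x) ≠ ⊤ := fun h3 => hfin (by rw [h3, ENNReal.top_mul hne2])
  have hf2 : ∫⁻ x, ENNReal.ofReal (ρ₂ x) ≠ ⊤ := fun h3 => hfin (by rw [h3, ENNReal.mul_top hne1])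
  obtain ⟨R, hR⟩ := h.bdd
  obtain ⟨x₀, hx₀⟩ : ∃ x, ρ₁ x ≠ 0 := by
    by_contra hcon
    push Not at hcon
    apply hne1
    simp [hcon]
  obtain ⟨y₀, hy₀⟩ : ∃ y, ρ₂ y ≠ 0 := by
    by_contra hcon
    push Not at hcon
    apply hne2
    simp [hcon]
  have key : ∀ (x : Eu α) (y : Eu β), R < ‖x‖ ∨ R < ‖y‖ → ρ₁ x * ρ₂ y = 0 := by
    intro x y hxy
    have h3 := hR (WithLp.toLp 2 (Sum.elim x y)) (by
      have h4 : ‖(WithLp.toLp 2 (Sum.elim x y) : Eu (α ⊕ β))‖ = √(‖x‖ ^ 2 + ‖y‖ ^ 2) := by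
        rw [EuclideanSpace.norm_eq, EuclideanSpace.norm_sq_eq, EuclideanSpace.norm_sq_eq,
          Fintype.sum_sum_type]
        rfl
      rw [h4]
      rcases hxy with h5 | h5
      · refine h5.trans_le (Real.le_sqrt_of_sq_le ?_)
        nlinarith [sq_nonneg ‖y‖]
      · refine h5.trans_le (Real.le_sqrt_of_sq_le ?_)
        nlinarith [sq_nonneg ‖x‖])
    exact h3
  refine ⟨⟨h1, m1, l1, ⟨R, fun x hx => ?_⟩, ?_, ?_⟩, ⟨h2, m2, l2, ⟨R, fun y hy => ?_⟩, ?_, ?_⟩⟩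
  · exact (mul_eq_zero.1 (key x y₀ (Or.inl hx))).resolve_right hy₀
  · rw [mu_univ]
    exact hf1
  · rw [mu_ne]
    exact hne1
  · exact (mul_eq_zero.1 (key x₀ y (Or.inr hy))).resolve_left hx₀
  · rw [mu_univ]
    exact hf2
  · rw [mu_ne]
    exact hne2

end ten

/-! ### the extension maps -/

section ext

variable {ι : Type} [Fintype ι]

open Classical in
/-- fill in the missing coordinates by zero -/
noncomputable def ez (P : ι → Prop) [Fintype {v // P v}] (x : Eu {v // P v}) : Eu ι :=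
  WithLp.toLp 2 fun v => if h : P v then x ⟨v, h⟩ else 0

open Classical in
theorem ez_pos (P : ι → Prop) [Fintype {v // P v}] (x : Eu {v // P v}) (v : ι) (h : P v) : ez P x v = x ⟨v, h⟩ := by
  show (if h : P v then x ⟨v, h⟩ else 0) = x ⟨v, h⟩
  rw [dif_pos h]

open Classical in
theorem ez_neg (P : ι → Prop) [Fintype {v // P v}] (x : Eu {v // P v}) (v : ι) (h : ¬ P v) : ez P x v = 0 := by
  show (if h : P v then x ⟨v, h⟩ else 0) = 0
  rw [dif_neg h]

open Classical in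
theorem ez_meas (P : ι → Prop) [Fintype {v // P v}] : Measurable (ez P) := by
  refine Continuous.measurable ?_
  refine (PiLp.continuous_toLp 2 (fun _ : ι => ℝ)).comp (continuous_pi fun v => ?_)
  by_cases h : P v
  · simp only [h, dite_true]
    fun_prop
  · simp only [h, dite_false]
    exact continuous_const

open Classical in
theorem ez_comb (P : ι → Prop) [Fintype {v // P v}] (t : ℝ) (x y : Eu {v // P v}) :
    ez P ((1 - t) • x + t • y) = (1 - t) • ez P x + t • ez P y := by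
  ext v
  rw [PiLp.add_apply, PiLp.smul_apply, PiLp.smul_apply]
  by_cases h : P v
  · rw [ez_pos P _ v h, ez_pos P _ v h, ez_pos P _ v h]
    rfl
  · rw [ez_neg P _ v h, ez_neg P _ v h, ez_neg P _ v h]
    simp

open Classical in
/-- fill in the coordinate `r` -/
noncomputable def et (r : ι) [Fintype {v // v ≠ r}] (t : ℝ) (x : Eu {v // v ≠ r}) : Eu ι :=
  WithLp.toLp 2 fun v => if h : v = r then t else x ⟨v, h⟩

open Classical in
theorem et_self (r : ι) [Fintype {v // v ≠ r}] (t : ℝ) (x : Eu {v // v ≠ r}) : et r t x r = t := by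
  show (if h : r = r then t else x ⟨r, h⟩) = t
  rw [dif_pos rfl]

open Classical in
theorem et_ne (r : ι) [Fintype {v // v ≠ r}] (t : ℝ) (x : Eu {v // v ≠ r}) (v : ι) (h : v ≠ r) : et r t x v = x ⟨v, h⟩ := by
  show (if h : v = r then t else x ⟨v, h⟩) = x ⟨v, h⟩
  rw [dif_neg h]

open Classical in
theorem et_meas (r : ι) [Fintype {v // v ≠ r}] (t : ℝ) : Measurable (et r t) := by
  refine Continuous.measurable ?_
  refine (PiLp.continuous_toLp 2 (fun _ : ι => ℝ)).comp (continuous_pi fun v => ?_)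
  by_cases h : v = r
  · simp only [h, dite_true]
    exact continuous_const
  · simp only [h, dite_false]
    fun_prop

open Classical in
theorem et_comb (r : ι) [Fintype {v // v ≠ r}] (t l : ℝ) (x y : Eu {v // v ≠ r}) :
    et r t ((1 - l) • x + l • y) = (1 - l) • et r t x + l • et r t y := by
  ext v
  rw [PiLp.add_apply, PiLp.smul_apply, PiLp.smul_apply]
  by_cases h : v = r
  · rw [h, et_self, et_self, et_self, smul_eq_mul, smul_eq_mul]
    ring
  · rw [et_ne _ _ _ v h, et_ne _ _ _ v h, et_ne _ _ _ v h]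
    rfl

end ext

/-! ### the two cases -/

section cases

variable {ι : Type} [Fintype ι] [PartialOrder ι]

open Classical in
/-- the forest falls into two parts -/
theorem case1 (h2 : S_DRI) (h3 : S_DPR) {F : ι → Eu ι → ℝ} (hF : Fac F) (hρ : LC (fun x => ∏ v, F v x))
    (P : ι → Prop) (hP : ∀ u v, P v → u ≤ v → P u) (hP' : ∀ u v, ¬ P v → u ≤ v → ¬ P u) (k : ℝ) (hk : 0 ≤ k)
    (hα : ∀ G : {v // P v} → Eu {v // P v} → ℝ, Fac G → LC (fun x => ∏ v, G v x) → KLSd (fun x => ∏ v, G v x) k)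
    (hβ : ∀ G : {v // ¬ P v} → Eu {v // ¬ P v} → ℝ, Fac G → LC (fun x => ∏ v, G v x) →
      KLSd (fun x => ∏ v, G v x) k) : KLSd (fun x => ∏ v, F v x) k := by
  obtain ⟨G, hG⟩ : ∃ G : {v // P v} → Eu {v // P v} → ℝ, G = fun v x => F v.1 (ez P x) := ⟨_, rfl⟩
  obtain ⟨G', hG'⟩ : ∃ G' : {v // ¬ P v} → Eu {v // ¬ P v} → ℝ, G' = fun v x => F v.1 (ez (fun v => ¬ P v) x) :=
    ⟨_, rfl⟩
  have fG : Fac G := by
    rw [hG]
    refine fac_pull hF (fun v : {v // P v} => v.1) (ez P) (ez_meas P) (ez_comb P) ?_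
    intro v x y hxy u hu
    have hPu := hP u v.1 v.2 hu
    rw [ez_pos P x u hPu, ez_pos P y u hPu]
    exact hxy ⟨u, hPu⟩ hu
  have fG' : Fac G' := by
    rw [hG']
    refine fac_pull hF (fun v : {v // ¬ P v} => v.1) (ez (fun v => ¬ P v)) (ez_meas _) (ez_comb _) ?_
    intro v x y hxy u hu
    have hPu := hP' u v.1 v.2 hu
    rw [ez_pos (fun v => ¬ P v) x u hPu, ez_pos (fun v => ¬ P v) y u hPu]
    exact hxy ⟨u, hPu⟩ hu
  have key : (fun x : Eu ({v // P v} ⊕ {v // ¬ P v}) =>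
      ∏ v, F v (WithLp.toLp 2 fun j => x ((Equiv.sumCompl P).symm j))) =
      fun x => (∏ v, G v (WithLp.toLp 2 fun i => x (Sum.inl i))) *
        ∏ v, G' v (WithLp.toLp 2 fun j => x (Sum.inr j)) := by
    funext x
    rw [← Fintype.prod_subtype_mul_prod_subtype P]
    congr 1
    · refine Finset.prod_congr rfl fun v _ => ?_
      rw [hG]
      refine hF.dep v.1 _ _ fun u hu => ?_
      have hPu := hP u v.1 v.2 hu
      rw [ez_pos P _ u hPu]
      show x ((Equiv.sumCompl P).symm u) = x (Sum.inl ⟨u, hPu⟩)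
      rw [Equiv.sumCompl_symm_apply_of_pos hPu]
    · refine Finset.prod_congr rfl fun v _ => ?_
      rw [hG']
      refine hF.dep v.1 _ _ fun u hu => ?_
      have hPu := hP' u v.1 v.2 hu
      rw [ez_pos (fun v => ¬ P v) _ u hPu]
      show x ((Equiv.sumCompl P).symm u) = x (Sum.inr ⟨u, hPu⟩)
      rw [Equiv.sumCompl_symm_apply_of_neg hPu]
  have hd := h2 _ _ (Equiv.sumCompl P) (fun x => ∏ v, F v x)
  have hl := hd.1 hρ
  refine hd.2 k ?_
  rw [key] at hl ⊢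
  obtain ⟨l1, l2⟩ := lc_factors (fun x => ∏ v, G v x) (fun x => ∏ v, G' v x)
    (fun x => Finset.prod_nonneg fun v _ => fG.nonneg v x) (fun x => Finset.prod_nonneg fun v _ => fG'.nonneg v x)
    (Finset.measurable_prod _ fun v _ => fG.meas v) (Finset.measurable_prod _ fun v _ => fG'.meas v)
    (prod_logc G fG.nonneg fG.logc) (prod_logc G' fG'.nonneg fG'.logc) hl
  exact h3 _ _ _ _ l1 l2 k hk (hα G fG l1) (hβ G' fG' l2)

open Classical in
/-- the equivalence of the coordinates with the root first -/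
noncomputable def ee (r : ι) (n : ℕ) (e : {v // v ≠ r} ≃ Fin n) : Fin 1 ⊕ Fin n ≃ ι where
  toFun := Sum.elim (fun _ => r) (fun i => (e.symm i).1)
  invFun := fun v => if h : v = r then Sum.inl 0 else Sum.inr (e ⟨v, h⟩)
  left_inv := by
    intro x
    rcases x with i | i
    · have hi : i = 0 := Subsingleton.elim _ _
      rw [hi]
      show (if h : r = r then Sum.inl 0 else Sum.inr (e ⟨r, h⟩)) = _
      rw [dif_pos rfl]
    · show (if h : (e.symm i).1 = r then Sum.inl 0 else Sum.inr (e ⟨(e.symm i).1, h⟩)) = _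
      rw [dif_neg (e.symm i).2]
      congr 1
      exact e.apply_symm_apply i
  right_inv := by
    intro v
    by_cases h : v = r
    · show Sum.elim (fun _ => r) (fun i => (e.symm i).1)
        (if h : v = r then Sum.inl 0 else Sum.inr (e ⟨v, h⟩)) = v
      rw [dif_pos h]
      exact h.symm
    · show Sum.elim (fun _ => r) (fun i => (e.symm i).1)
        (if h : v = r then Sum.inl 0 else Sum.inr (e ⟨v, h⟩)) = v
      rw [dif_neg h]
      show (e.symm (e ⟨v, h⟩)).1 = v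
      rw [e.symm_apply_apply]

omit [Fintype ι] [PartialOrder ι] in
open Classical in
theorem ee_self (r : ι) (n : ℕ) (e : {v // v ≠ r} ≃ Fin n) : (ee r n e).symm r = Sum.inl 0 := by
  show (if h : r = r then Sum.inl 0 else Sum.inr (e ⟨r, h⟩)) = _
  rw [dif_pos rfl]

omit [Fintype ι] [PartialOrder ι] in
open Classical in
theorem ee_ne (r : ι) (n : ℕ) (e : {v // v ≠ r} ≃ Fin n) (v : ι) (h : v ≠ r) :
    (ee r n e).symm v = Sum.inr (e ⟨v, h⟩) := by
  show (if h : v = r then Sum.inl 0 else Sum.inr (e ⟨v, h⟩)) = _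
  rw [dif_neg h]

open Classical in
/-- the forest is a tree -/
theorem case2 (C : ℝ) (h1 : ∀ (n : ℕ) (ρ : EK 1 n → ℝ), LC ρ → ∀ k : ℝ, 1 ≤ k →
      (∀ t : ℝ, LC (fun z : Eu (Fin n) => ρ (pt n t z)) → KLSd (fun z : Eu (Fin n) => ρ (pt n t z)) k) →
      KLSd ρ (C * k)) (h2 : S_DRI) {F : ι → Eu ι → ℝ} (hF : Fac F) (hρ : LC (fun x => ∏ v, F v x))
    (r : ι) (hr : ∀ v, r ≤ v) (k : ℝ) (hk : 1 ≤ k)
    (hβ : ∀ G : {v // v ≠ r} → Eu {v // v ≠ r} → ℝ, Fac G → LC (fun x => ∏ v, G v x) →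
      KLSd (fun x => ∏ v, G v x) k) : KLSd (fun x => ∏ v, F v x) (C * k) := by
  obtain ⟨n, hn⟩ : ∃ n, n = Fintype.card {v // v ≠ r} := ⟨_, rfl⟩
  obtain ⟨e⟩ : Nonempty ({v // v ≠ r} ≃ Fin n) := by
    rw [hn]
    exact ⟨Fintype.equivFin _⟩
  have hd := h2 _ _ (ee r n e) (fun x => ∏ v, F v x)
  refine hd.2 (C * k) (h1 n _ (hd.1 hρ) k hk fun t ht => ?_)
  have hd2 := h2 _ _ e (fun z : Eu (Fin n) => ∏ v, F v (WithLp.toLp 2 fun j => (pt n t z) ((ee r n e).symm j)))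
  refine hd2.2 k ?_
  have hl := hd2.1 ht
  obtain ⟨G, hG⟩ : ∃ G : {v // v ≠ r} → Eu {v // v ≠ r} → ℝ, G = fun v x => F v.1 (et r t x) := ⟨_, rfl⟩
  have fG : Fac G := by
    rw [hG]
    refine fac_pull hF (fun v : {v // v ≠ r} => v.1) (et r t) (et_meas r t) (fun l x y => et_comb r t l x y) ?_
    intro v x y hxy u hu
    by_cases hur : u = r
    · rw [hur, et_self, et_self]
    · rw [et_ne r t x u hur, et_ne r t y u hur]
      exact hxy ⟨u, hur⟩ hu
  have key : (fun x : Eu {v // v ≠ r} => ∏ v, F v (WithLp.toLp 2 fun j =>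
      (pt n t (WithLp.toLp 2 fun j => x (e.symm j))) ((ee r n e).symm j))) =
      fun x => F r (et r t 0) * ∏ v, G v x := by
    funext x
    have h3 : (WithLp.toLp 2 fun j => (pt n t (WithLp.toLp 2 fun j => x (e.symm j))) ((ee r n e).symm j) : Eu ι) =
        et r t x := by
      ext v
      by_cases hv : v = r
      · rw [hv, et_self]
        show (pt n t (WithLp.toLp 2 fun j => x (e.symm j))) ((ee r n e).symm r) = t
        rw [ee_self]
        rfl
      · rw [et_ne r t x v hv]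
        show (pt n t (WithLp.toLp 2 fun j => x (e.symm j))) ((ee r n e).symm v) = _
        rw [ee_ne r n e v hv]
        show x (e.symm (e ⟨v, hv⟩)) = _
        rw [e.symm_apply_apply]
    rw [h3, Fintype.prod_eq_mul_prod_subtype_ne _ r, hG]
    congr 1
    refine hF.dep r _ _ fun u hu => ?_
    have hur : u = r := le_antisymm hu (hr u)
    rw [hur, et_self, et_self]
  rw [key] at hl ⊢
  have hc0 : 0 ≤ F r (et r t 0) := hF.nonneg _ _
  have hc : 0 < F r (et r t 0) := by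
    refine lt_of_le_of_ne hc0 fun h0 => ?_
    refine (mu_ne _).1 hl.ne ?_
    rw [← h0]
    simp
  exact kls_smul hc (hβ G fG (lc_unsmul hc hl))

end cases

open Classical in
theorem main (C : ℝ) (hC : 1 ≤ C) (h1 : ∀ (n : ℕ) (ρ : EK 1 n → ℝ), LC ρ → ∀ k : ℝ, 1 ≤ k →
      (∀ t : ℝ, LC (fun z : Eu (Fin n) => ρ (pt n t z)) → KLSd (fun z : Eu (Fin n) => ρ (pt n t z)) k) →
      KLSd ρ (C * k)) (h2 : S_DRI) (h3 : S_DPR) (N : ℕ) :
    ∀ (ι : Type) [Fintype ι] [PartialOrder ι] (d : ℕ), Fintype.card ι = N → Frs ι d →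
      ∀ F : ι → Eu ι → ℝ, Fac F → LC (fun x => ∏ v, F v x) → KLSd (fun x => ∏ v, F v x) (C ^ d) := by
  induction N using Nat.strong_induction_on with
  | _ N ih =>
    intro ι _ _ d hcard hfr F hF hρ
    rcases isEmpty_or_nonempty ι with hι | hι
    · exact kls_empty _ _
    obtain ⟨r, hr⟩ := (Set.finite_univ : (Set.univ : Set ι).Finite).exists_minimal Set.univ_nonempty
    have hmin : ∀ u, u ≤ r → r ≤ u := fun u hu => hr.2 trivial hu
    by_cases hall : ∀ v, r ≤ v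
    · -- a tree
      have hd1 : 1 ≤ d := by
        refine le_trans ?_ (hfr.height r)
        have : Nonempty {u : ι // u ≤ r} := ⟨⟨r, le_refl r⟩⟩
        exact Nat.card_pos
      obtain ⟨d', rfl⟩ : ∃ d', d = d' + 1 := ⟨d - 1, by omega⟩
      rw [pow_succ, mul_comm]
      refine case2 C h1 h2 hF hρ r hall (C ^ d') (one_le_pow₀ hC) fun G hG hl => ?_
      refine ih (Fintype.card {v // v ≠ r}) ?_ {v // v ≠ r} d' rfl ?_ G hG hl
      · rw [← hcard]
        exact Fintype.card_subtype_lt (x := r) (by simp)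
      · have := frs_root hfr r hall
        rwa [Nat.add_sub_cancel] at this
    · push Not at hall
      obtain ⟨v₀, hv₀⟩ := hall
      refine case1 h2 h3 hF hρ (fun v => r ≤ v) ?_ ?_ (C ^ d) (by positivity) ?_ ?_
      · intro u v hv hu
        rcases hfr.chain v r u hv hu with h4 | h4
        · exact h4
        · exact hmin u h4
      · intro u v hv hu h4
        exact hv (h4.trans hu)
      · intro G hG hl
        refine ih (Fintype.card {v // r ≤ v}) ?_ {v // r ≤ v} d rfl (frs_sub hfr _) G hG hl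
        rw [← hcard]
        exact Fintype.card_subtype_lt (x := v₀) hv₀
      · intro G hG hl
        refine ih (Fintype.card {v // ¬ r ≤ v}) ?_ {v // ¬ r ≤ v} d rfl (frs_sub hfr _) G hG hl
        rw [← hcard]
        exact Fintype.card_subtype_lt (x := r) (by simp)

theorem dtd (h1 : S_DON) (h2 : S_DRI) (h3 : S_DPR) : S_DTD := by
  obtain ⟨C, hC, h⟩ := h1
  refine ⟨C, hC, fun ι _ _ d hfr F hF hρ => ?_⟩
  exact main C hC h h2 h3 (Fintype.card ι) ι d rfl hfr F hF hρ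

end Pool.Agent.Q150.EM.DTD
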