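import Pool.Agent.Q86.EM.Stm

/-!
# Project EM (helper86), job LEV: integration over the levels
-/

set_option autoImplicit false

namespace Pool.Agent.Q150.EM

open MeasureTheory Set Filter Topology
open Pool.Agent.Q86.EM
open Pool.Agent.H888R2.KT (LC)
open Pool.Agent.H212R2.KLS (mu Bdd)

/-! ## The cutoff -/

theorem deriv_left {x : ℝ} (h : x ≤ 0) : deriv Real.smoothTransition x = 0 := by
  apply IsLocalMin.deriv_eq_zero
  refine Filter.Eventually.of_forall fun y => ?_
  rw [Real.smoothTransition.zero_of_nonpos h]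
  exact Real.smoothTransition.nonneg y

theorem deriv_right {x : ℝ} (h : 1 ≤ x) : deriv Real.smoothTransition x = 0 := by
  apply IsLocalMax.deriv_eq_zero
  refine Filter.Eventually.of_forall fun y => ?_
  rw [Real.smoothTransition.one_of_one_le h]
  exact Real.smoothTransition.le_one y

theorem exists_M : ∃ M : ℝ, 1 ≤ M ∧ ∀ x, |deriv Real.smoothTransition x| ≤ M := by
  have hc : Continuous (deriv Real.smoothTransition) :=
    (Real.smoothTransition.contDiff (n := 1)).continuous_deriv le_rfl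
  obtain ⟨C, hC⟩ := (isCompact_Icc (a := (0 : ℝ)) (b := 1)).exists_bound_of_continuousOn
    hc.continuousOn
  refine ⟨max C 1, le_max_right _ _, fun x => ?_⟩
  rcases le_or_gt x 0 with h | h
  · rw [deriv_left h, abs_zero]
    exact zero_le_one.trans (le_max_right _ _)
  · rcases le_or_gt 1 x with h' | h'
    · rw [deriv_right h', abs_zero]
      exact zero_le_one.trans (le_max_right _ _)
    · exact (hC x ⟨h.le, h'.le⟩).trans (le_max_left _ _)

/-- the cutoff at the level `a` -/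
noncomputable def sg (a t : ℝ) : ℝ := Real.smoothTransition (2 * (t - a) / a)

/-- its derivative -/
noncomputable def dg (a t : ℝ) : ℝ := deriv Real.smoothTransition (2 * (t - a) / a) * (2 / a)

/-- `K(u) - u²/2` -/
noncomputable def kk (u : ℝ) : ℝ := Kp u - 1 / 2 * u ^ 2

theorem sg_zero {a t : ℝ} (ha : 0 < a) (h : t ≤ a) : sg a t = 0 := by
  apply Real.smoothTransition.zero_of_nonpos
  apply div_nonpos_of_nonpos_of_nonneg _ ha.le
  linarith

theorem sg_one {a t : ℝ} (ha : 0 < a) (h : 3 / 2 * a ≤ t) : sg a t = 1 := by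
  apply Real.smoothTransition.one_of_one_le
  rw [le_div_iff₀ ha]
  linarith

theorem sg_nn (a t : ℝ) : 0 ≤ sg a t := Real.smoothTransition.nonneg _

theorem sg_le (a t : ℝ) : sg a t ≤ 1 := Real.smoothTransition.le_one _

theorem dg_zero {a t : ℝ} (ha : 0 < a) (h : t ≤ a) : dg a t = 0 := by
  unfold dg
  rw [deriv_left, zero_mul]
  apply div_nonpos_of_nonpos_of_nonneg _ ha.le
  linarith

theorem dg_one {a t : ℝ} (ha : 0 < a) (h : 3 / 2 * a ≤ t) : dg a t = 0 := by
  unfold dg
  rw [deriv_right, zero_mul]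
  rw [le_div_iff₀ ha]
  linarith

theorem dg_bd {M : ℝ} (hM : ∀ x, |deriv Real.smoothTransition x| ≤ M) {a : ℝ} (ha : 0 < a) (t : ℝ) :
    a ^ 2 * dg a t ^ 2 ≤ 4 * M ^ 2 := by
  have h1 : a * dg a t = 2 * deriv Real.smoothTransition (2 * (t - a) / a) := by
    unfold dg
    field_simp
  rw [← mul_pow, h1, mul_pow]
  have h2 := hM (2 * (t - a) / a)
  have h3 := sq_le_sq' (abs_le.1 h2).1 (abs_le.1 h2).2
  linarith

theorem sg_deriv (a t : ℝ) : HasDerivAt (sg a) (dg a t) t := by
  have h1 : HasDerivAt (fun t : ℝ => 2 * (t - a) / a) (2 / a) t := by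
    have h2 := (((hasDerivAt_id t).sub_const a).const_mul 2).div_const a
    simpa using h2
  have h2 : HasDerivAt Real.smoothTransition (deriv Real.smoothTransition (2 * (t - a) / a))
      (2 * (t - a) / a) :=
    ((Real.smoothTransition.contDiff (n := 1)).differentiable one_ne_zero _).hasDerivAt
  exact h2.comp t h1

theorem sg_smooth (a : ℝ) : ContDiff ℝ 1 (sg a) := by
  unfold sg
  exact (Real.smoothTransition.contDiff (n := 1)).comp (by fun_prop)

/-! ## The levels -/

/-- the levels -/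
noncomputable def lv (N : ℝ) (i : ℕ) : ℝ := N * (2 / 3) ^ i

theorem lv_pos {N : ℝ} (hN : 0 < N) (i : ℕ) : 0 < lv N i := by
  unfold lv
  positivity

theorem lv_succ (N : ℝ) (i : ℕ) : lv N (i + 1) = 2 / 3 * lv N i := by
  unfold lv
  ring

theorem lev1 {N t : ℝ} (hN : 0 < N) (ht : t ≤ N) (n : ℕ) :
    (t ≤ lv N n → ∑ i ∈ Finset.range n, lv N (i + 1) ^ 2 * kk (sg (lv N (i + 1)) t) = 0) ∧
    (lv N n < t → t ^ 2 / 675 - lv N n ^ 2 / 75 ≤
      ∑ i ∈ Finset.range n, lv N (i + 1) ^ 2 * kk (sg (lv N (i + 1)) t)) := by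
  induction n with
  | zero =>
    refine ⟨fun _ => by simp, fun h => ?_⟩
    unfold lv at h
    simp at h
    linarith
  | succ n ih =>
    obtain ⟨ih1, ih2⟩ := ih
    have hp := lv_pos hN n
    have hp' := lv_pos hN (n + 1)
    have hs := lv_succ N n
    rw [Finset.sum_range_succ]
    constructor
    · intro h
      rw [ih1 (by linarith), sg_zero hp' h]
      have : kk 0 = 0 := kh_zero
      rw [this]
      ring
    · intro h
      rcases le_or_gt t (lv N n) with h' | h'
      · rw [ih1 h']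
        have h1 : -(1 / 100) ≤ kk (sg (lv N (n + 1)) t) := kh_ge (sg_nn _ _) (sg_le _ _)
        have h2 := mul_le_mul_of_nonneg_left h1 (sq_nonneg (lv N (n + 1)))
        have h3 : t ^ 2 ≤ (3 / 2 * lv N (n + 1)) ^ 2 := by
          apply pow_le_pow_left₀ (by linarith)
          linarith
        have h4 : (3 / 2 * lv N (n + 1)) ^ 2 = 9 / 4 * lv N (n + 1) ^ 2 := by ring
        rw [h4] at h3
        linarith
      · have h1 := ih2 h'
        have h2 : sg (lv N (n + 1)) t = 1 := sg_one hp' (by linarith)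
        have h3 : kk 1 = 1 / 60 := kh_one
        rw [h2, h3]
        have h4 : lv N (n + 1) ^ 2 = 4 / 9 * lv N n ^ 2 := by
          rw [hs]
          ring
        rw [h4]
        linarith

theorem lev1' {N t : ℝ} (hN : 0 < N) (ht : t ≤ N) (n : ℕ) :
    (max t 0) ^ 2 / 675 - lv N n ^ 2 / 75 ≤
      ∑ i ∈ Finset.range n, lv N (i + 1) ^ 2 * kk (sg (lv N (i + 1)) t) := by
  obtain ⟨h1, h2⟩ := lev1 hN ht n
  have hp := lv_pos hN n
  rcases le_or_gt t (lv N n) with h | h
  · rw [h1 h]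
    have h3 : (max t 0) ^ 2 ≤ lv N n ^ 2 :=
      pow_le_pow_left₀ (le_max_right _ _) (max_le h hp.le) 2
    have h4 : 0 ≤ lv N n ^ 2 := by positivity
    linarith
  · have h3 : max t 0 = t := max_eq_left (by linarith)
    rw [h3]
    exact h2 h

theorem lev2 {M : ℝ} (hM : ∀ x, |deriv Real.smoothTransition x| ≤ M) {N t : ℝ} (hN : 0 < N) (n : ℕ) :
    (t ≤ lv N n → ∑ i ∈ Finset.range n, lv N (i + 1) ^ 2 * dg (lv N (i + 1)) t ^ 2 = 0) ∧
    ∑ i ∈ Finset.range n, lv N (i + 1) ^ 2 * dg (lv N (i + 1)) t ^ 2 ≤ 4 * M ^ 2 := by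
  induction n with
  | zero =>
    refine ⟨fun _ => by simp, ?_⟩
    simp
    positivity
  | succ n ih =>
    obtain ⟨ih1, ih2⟩ := ih
    have hp := lv_pos hN n
    have hp' := lv_pos hN (n + 1)
    have hs := lv_succ N n
    rw [Finset.sum_range_succ]
    constructor
    · intro h
      rw [ih1 (by linarith), dg_zero hp' h]
      ring
    · rcases le_or_gt t (lv N n) with h' | h'
      · rw [ih1 h', zero_add]
        exact dg_bd hM hp' t
      · rw [dg_one hp' (by linarith)]
        simpa using ih2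

/-! ## Medians -/

section

variable {κ : Type} [Fintype κ]

theorem exists_med (μ : Measure (Eu κ)) [IsProbabilityMeasure μ] (f : Eu κ → ℝ) (hf : Continuous f)
    (B : ℝ) (hB : ∀ᵐ x ∂μ, |f x| ≤ B) : ∃ c : ℝ, |c| ≤ B + 1 ∧ ∀ a : ℝ, 0 < a →
      μ.real {x | c + a < f x} ≤ 1 / 2 ∧ μ.real {x | f x < c - a} ≤ 1 / 2 := by
  set s : Set ℝ := {t | 1 / 2 ≤ μ.real {x | f x ≤ t}} with hs
  have hBs : B ∈ s := by
    have h1 : μ.real {x | f x ≤ B} = 1 := by
      rw [measureReal_def, prob_compl_eq_zero_iff (measurableSet_le hf.measurable measurable_const) |>.1,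
        ENNReal.toReal_one]
      rw [ae_iff] at hB
      refine measure_mono_null ?_ hB
      intro x hx hcon
      exact hx ((le_abs_self _).trans hcon)
    change 1 / 2 ≤ μ.real {x | f x ≤ B}
    rw [h1]
    norm_num
  have hlow : ∀ t ∈ s, -B ≤ t := by
    intro t ht
    by_contra hcon
    push Not at hcon
    have h1 : μ.real {x | f x ≤ t} = 0 := by
      rw [measureReal_def]
      have h2 : μ {x | f x ≤ t} = 0 := by
        rw [ae_iff] at hB
        refine measure_mono_null ?_ hB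
        intro x hx hcon2
        have h3 := (abs_le.1 hcon2).1
        have h4 : f x ≤ t := hx
        linarith
      rw [h2, ENNReal.toReal_zero]
    have h2 : 1 / 2 ≤ μ.real {x | f x ≤ t} := ht
    rw [h1] at h2
    norm_num at h2
  have hbdd : BddBelow s := ⟨-B, hlow⟩
  refine ⟨sInf s, ?_, fun a ha => ⟨?_, ?_⟩⟩
  · rw [abs_le]
    have h1 : sInf s ≤ B := csInf_le hbdd hBs
    have h2 : -B ≤ sInf s := le_csInf ⟨B, hBs⟩ hlow
    constructor <;> linarith
  · obtain ⟨t, ht, htc⟩ := exists_lt_of_csInf_lt ⟨B, hBs⟩ (by linarith : sInf s < sInf s + a)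
    have h1 : 1 / 2 ≤ μ.real {x | f x ≤ t} := ht
    have h2 : μ.real {x | f x ≤ t}ᶜ = 1 - μ.real {x | f x ≤ t} :=
      probReal_compl_eq_one_sub (measurableSet_le hf.measurable measurable_const)
    have h3 : μ.real {x | sInf s + a < f x} ≤ μ.real {x | f x ≤ t}ᶜ := by
      refine measureReal_mono fun x hx hcon => ?_
      have h4 : f x ≤ t := hcon
      have h5 : sInf s + a < f x := hx
      linarith
    linarith
  · have h1 : sInf s - a ∉ s := by
      intro hcon
      have := csInf_le hbdd hcon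
      linarith
    have h2 : μ.real {x | f x ≤ sInf s - a} < 1 / 2 := by
      by_contra hcon
      push Not at hcon
      exact h1 hcon
    have h3 : μ.real {x | f x < sInf s - a} ≤ μ.real {x | f x ≤ sInf s - a} := by
      refine measureReal_mono fun x hx => ?_
      exact (le_of_lt hx : f x ≤ sInf s - a)
    linarith

/-- the composition with the cutoff -/
theorem cut {F : Eu κ → ℝ} (hF : ContDiff ℝ 1 F) (a : ℝ) :
    ContDiff ℝ 1 (fun x => sg a (F x)) ∧
      ∀ x, ‖fderiv ℝ (fun x => sg a (F x)) x‖ ^ 2 = dg a (F x) ^ 2 * ‖fderiv ℝ F x‖ ^ 2 := by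
  refine ⟨(sg_smooth a).comp hF, fun x => ?_⟩
  have h1 : HasFDerivAt F (fderiv ℝ F x) x := (hF.differentiable one_ne_zero x).hasFDerivAt
  have h2 := (sg_deriv a (F x)).comp_hasFDerivAt x h1
  have h3 : fderiv ℝ (fun x => sg a (F x)) x = dg a (F x) • fderiv ℝ F x := h2.fderiv
  rw [h3, norm_smul, mul_pow, Real.norm_eq_abs, sq_abs]

/-- one sign -/
theorem side (μ : Measure (Eu κ)) [IsProbabilityMeasure μ]
    (hint : ∀ g : Eu κ → ℝ, Continuous g → Integrable g μ) (A : ℝ) (hA : 0 ≤ A)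
    (H : ∀ u : Eu κ → ℝ, ContDiff ℝ 1 u → (∀ x, 0 ≤ u x) → (∀ x, u x ≤ 1) → ∫ x, u x ∂μ ≤ 1 / 2 →
      ∫ x, (Kp (u x) - 1 / 2 * u x ^ 2) ∂μ ≤ A * ∫ x, ‖fderiv ℝ u x‖ ^ 2 ∂μ)
    {M : ℝ} (hM : ∀ x, |deriv Real.smoothTransition x| ≤ M)
    (F : Eu κ → ℝ) (hF : ContDiff ℝ 1 F) (N : ℝ) (hN : 0 < N) (hFN : ∀ᵐ x ∂μ, F x ≤ N)
    (hmed : ∀ a : ℝ, 0 < a → μ.real {x | a < F x} ≤ 1 / 2) :
    ∫ x, (max (F x) 0) ^ 2 ∂μ ≤ 2700 * M ^ 2 * A * ∫ x, ‖fderiv ℝ F x‖ ^ 2 ∂μ := by
  have hFc : Continuous F := hF.continuous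
  have hFd : Continuous (fderiv ℝ F) := hF.continuous_fderiv one_ne_zero
  have hKc : Continuous kk := by
    unfold kk Kp
    fun_prop
  -- all levels
  have hn : ∀ n : ℕ, ∫ x, ((max (F x) 0) ^ 2 / 675 - lv N n ^ 2 / 75) ∂μ ≤
      A * (4 * M ^ 2) * ∫ x, ‖fderiv ℝ F x‖ ^ 2 ∂μ := by
    intro n
    have hc1 : ∀ i : ℕ, Continuous fun x => lv N (i + 1) ^ 2 * kk (sg (lv N (i + 1)) (F x)) := fun i =>
      continuous_const.mul (hKc.comp ((sg_smooth _).continuous.comp hFc))
    have hc2 : ∀ i : ℕ, Continuous fun x => lv N (i + 1) ^ 2 *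
        ‖fderiv ℝ (fun x => sg (lv N (i + 1)) (F x)) x‖ ^ 2 := fun i =>
      continuous_const.mul (((cut hF (lv N (i + 1))).1.continuous_fderiv one_ne_zero).norm.pow 2)
    calc ∫ x, ((max (F x) 0) ^ 2 / 675 - lv N n ^ 2 / 75) ∂μ
        ≤ ∫ x, ∑ i ∈ Finset.range n, lv N (i + 1) ^ 2 * kk (sg (lv N (i + 1)) (F x)) ∂μ := by
          apply integral_mono_ae
          · exact hint _ (by fun_prop)
          · exact hint _ (continuous_finsetSum _ fun i _ => hc1 i)
          · filter_upwards [hFN] with x hx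
            exact lev1' hN hx n
      _ = ∑ i ∈ Finset.range n, lv N (i + 1) ^ 2 * ∫ x, kk (sg (lv N (i + 1)) (F x)) ∂μ := by
          rw [integral_finsetSum _ fun i _ => hint _ (hc1 i)]
          refine Finset.sum_congr rfl fun i _ => ?_
          rw [integral_const_mul]
      _ ≤ ∑ i ∈ Finset.range n, lv N (i + 1) ^ 2 *
          (A * ∫ x, ‖fderiv ℝ (fun x => sg (lv N (i + 1)) (F x)) x‖ ^ 2 ∂μ) := by
          refine Finset.sum_le_sum fun i _ => mul_le_mul_of_nonneg_left ?_ (sq_nonneg _)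
          have hp := lv_pos hN (i + 1)
          apply H _ (cut hF _).1 (fun x => sg_nn _ _) (fun x => sg_le _ _)
          refine le_trans ?_ (hmed (lv N (i + 1)) hp)
          have hms : MeasurableSet {x | lv N (i + 1) < F x} :=
            measurableSet_lt measurable_const hFc.measurable
          rw [← integral_indicator_one hms]
          apply integral_mono
          · exact hint _ (cut hF _).1.continuous
          · exact (integrable_const (1 : ℝ)).indicator hms
          · intro x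
            by_cases hx : x ∈ {x | lv N (i + 1) < F x}
            · simp only [Set.indicator_of_mem hx, Pi.one_apply]
              exact sg_le _ _
            · simp only [Set.indicator_of_notMem hx]
              exact (sg_zero hp (not_lt.1 hx)).le
      _ = A * ∫ x, ∑ i ∈ Finset.range n, lv N (i + 1) ^ 2 *
          ‖fderiv ℝ (fun x => sg (lv N (i + 1)) (F x)) x‖ ^ 2 ∂μ := by
          rw [integral_finsetSum _ fun i _ => hint _ (hc2 i), Finset.mul_sum]
          refine Finset.sum_congr rfl fun i _ => ?_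
          rw [integral_const_mul]
          ring
      _ ≤ A * ∫ x, 4 * M ^ 2 * ‖fderiv ℝ F x‖ ^ 2 ∂μ := by
          apply mul_le_mul_of_nonneg_left _ hA
          apply integral_mono
          · exact hint _ (continuous_finsetSum _ fun i _ => hc2 i)
          · exact hint _ (continuous_const.mul (hFd.norm.pow 2))
          · intro x
            have h1 := (lev2 hM (N := N) (t := F x) hN n).2
            calc ∑ i ∈ Finset.range n, lv N (i + 1) ^ 2 *
                  ‖fderiv ℝ (fun x => sg (lv N (i + 1)) (F x)) x‖ ^ 2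
                = (∑ i ∈ Finset.range n, lv N (i + 1) ^ 2 * dg (lv N (i + 1)) (F x) ^ 2) *
                  ‖fderiv ℝ F x‖ ^ 2 := by
                  rw [Finset.sum_mul]
                  refine Finset.sum_congr rfl fun i _ => ?_
                  rw [(cut hF _).2 x, mul_assoc]
              _ ≤ _ := mul_le_mul_of_nonneg_right h1 (sq_nonneg _)
      _ = _ := by
          rw [integral_const_mul]
          ring
  have hi1 : Integrable (fun x => (max (F x) 0) ^ 2) μ := hint _ (by fun_prop)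
  have hn' : ∀ n : ℕ, (∫ x, (max (F x) 0) ^ 2 ∂μ) / 675 - lv N n ^ 2 / 75 ≤
      A * (4 * M ^ 2) * ∫ x, ‖fderiv ℝ F x‖ ^ 2 ∂μ := by
    intro n
    have h1 := hn n
    rw [integral_sub (hi1.div_const _) (integrable_const _), integral_div, integral_const] at h1
    simpa using h1
  have hlim : Tendsto (fun n : ℕ => (∫ x, (max (F x) 0) ^ 2 ∂μ) / 675 - lv N n ^ 2 / 75) atTop
      (𝓝 ((∫ x, (max (F x) 0) ^ 2 ∂μ) / 675 - (N * 0) ^ 2 / 75)) := by
    apply Tendsto.sub tendsto_const_nhds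
    apply Tendsto.div_const
    apply Tendsto.pow
    unfold lv
    apply Tendsto.const_mul
    exact tendsto_pow_atTop_nhds_zero_of_lt_one (by norm_num) (by norm_num)
  have h2 := le_of_tendsto' hlim hn'
  have h3 : (∫ x, (max (F x) 0) ^ 2 ∂μ) / 675 ≤
      A * (4 * M ^ 2) * ∫ x, ‖fderiv ℝ F x‖ ^ 2 ∂μ := by
    simpa using h2
  linarith

/-- both signs -/
theorem both (μ : Measure (Eu κ)) [IsProbabilityMeasure μ]
    (hint : ∀ g : Eu κ → ℝ, Continuous g → Integrable g μ)
    (hbd : ∀ g : Eu κ → ℝ, Continuous g → ∃ B : ℝ, ∀ᵐ x ∂μ, |g x| ≤ B) (A : ℝ) (hA : 0 ≤ A)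
    (H : ∀ u : Eu κ → ℝ, ContDiff ℝ 1 u → (∀ x, 0 ≤ u x) → (∀ x, u x ≤ 1) → ∫ x, u x ∂μ ≤ 1 / 2 →
      ∫ x, (Kp (u x) - 1 / 2 * u x ^ 2) ∂μ ≤ A * ∫ x, ‖fderiv ℝ u x‖ ^ 2 ∂μ)
    {M : ℝ} (hM : ∀ x, |deriv Real.smoothTransition x| ≤ M)
    (f : Eu κ → ℝ) (hf : ContDiff ℝ 1 f) :
    ∫ x, f x ^ 2 ∂μ - (∫ x, f x ∂μ) ^ 2 ≤ 5400 * M ^ 2 * A * ∫ x, ‖fderiv ℝ f x‖ ^ 2 ∂μ := by
  obtain ⟨B₀, hB₀⟩ := hbd f hf.continuous
  obtain ⟨B, hB, hB0⟩ : ∃ B : ℝ, (∀ᵐ x ∂μ, |f x| ≤ B) ∧ 0 ≤ B :=
    ⟨max B₀ 0, hB₀.mono fun x hx => hx.trans (le_max_left _ _), le_max_right _ _⟩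
  obtain ⟨c, hc, hmed⟩ := exists_med μ f hf.continuous B hB
  have hfc : Continuous f := hf.continuous
  have hN : 0 < 2 * B + 1 := by linarith
  have hc' := abs_le.1 hc
  have h1 := side μ hint A hA H hM (fun x => f x - c) (hf.sub contDiff_const) (2 * B + 1) hN
    (by
      filter_upwards [hB] with x hx
      have := (abs_le.1 hx).2
      linarith)
    (by
      intro a ha
      refine le_trans (measureReal_mono fun x hx => ?_) (hmed a ha).1
      have h2 : a < f x - c := hx
      change c + a < f x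
      linarith)
  have h2 := side μ hint A hA H hM (fun x => c - f x) (contDiff_const.sub hf) (2 * B + 1) hN
    (by
      filter_upwards [hB] with x hx
      have := (abs_le.1 hx).1
      linarith)
    (by
      intro a ha
      refine le_trans (measureReal_mono fun x hx => ?_) (hmed a ha).2
      have h2 : a < c - f x := hx
      change f x < c - a
      linarith)
  have e1 : ∀ x, ‖fderiv ℝ (fun x => f x - c) x‖ = ‖fderiv ℝ f x‖ := by
    intro x
    rw [fderiv_sub_const]
  have e2 : ∀ x, ‖fderiv ℝ (fun x => c - f x) x‖ = ‖fderiv ℝ f x‖ := by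
    intro x
    rw [fderiv_const_sub, norm_neg]
  simp only [e1] at h1
  simp only [e2] at h2
  have i1 : Integrable f μ := hint _ hfc
  have i2 : Integrable (fun x => f x ^ 2) μ := hint _ (by fun_prop)
  have e3 : ∫ x, (f x - c) ^ 2 ∂μ = ∫ x, f x ^ 2 ∂μ - 2 * c * ∫ x, f x ∂μ + c ^ 2 := by
    have e4 : ∀ x, (f x - c) ^ 2 = f x ^ 2 - 2 * c * f x + c ^ 2 := fun x => by ring
    simp only [e4]
    have i3 : Integrable (fun x => 2 * c * f x) μ := i1.const_mul _
    have i4 : Integrable (fun x => f x ^ 2 - 2 * c * f x) μ := i2.sub i3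
    rw [integral_add i4 (integrable_const _), integral_sub i2 i3, integral_const_mul, integral_const]
    simp
  have e5 : ∫ x, (f x - c) ^ 2 ∂μ = ∫ x, (max (f x - c) 0) ^ 2 ∂μ + ∫ x, (max (c - f x) 0) ^ 2 ∂μ := by
    rw [← integral_add (hint _ (by fun_prop)) (hint _ (by fun_prop))]
    refine integral_congr_ae (Filter.Eventually.of_forall fun x => ?_)
    change (f x - c) ^ 2 = (max (f x - c) 0) ^ 2 + (max (c - f x) 0) ^ 2
    rcases le_total (f x) c with h | h
    · rw [max_eq_right (by linarith), max_eq_left (by linarith)]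
      ring
    · rw [max_eq_left (by linarith), max_eq_right (by linarith)]
      ring
  have e6 : 0 ≤ (∫ x, f x ∂μ - c) ^ 2 := sq_nonneg _
  nlinarith

end

theorem lev : S_LEV := by
  obtain ⟨M, hM1, hM⟩ := exists_M
  refine ⟨5400 * M ^ 2, by positivity, ?_⟩
  intro κ _ ρ hρ h1 A hA H f hf
  have : IsProbabilityMeasure (mu ρ) := ⟨h1⟩
  refine both (mu ρ) (fun g hg => Pool.Agent.H888R2.KT.N9ax.integrable hρ hg) ?_ A hA H hM f hf
  intro g hg
  obtain ⟨R, hR⟩ := hρ.bdd
  obtain ⟨B, hB⟩ := (isCompact_closedBall (0 : Eu κ) R).exists_bound_of_continuousOn hg.continuousOn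
  refine ⟨B, ?_⟩
  have h2 : ∀ᵐ x ∂(mu ρ), x ∈ Metric.closedBall (0 : Eu κ) R := by
    unfold mu
    rw [ae_withDensity_iff (by
      exact ENNReal.measurable_ofReal.comp hρ.meas)]
    refine Filter.Eventually.of_forall fun x hx => ?_
    by_contra hcon
    apply hx
    rw [mem_closedBall_zero_iff] at hcon
    push Not at hcon
    rw [hR x hcon, ENNReal.ofReal_zero]
  filter_upwards [h2] with x hx
  exact hB x hx

end Pool.Agent.Q150.EM
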